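import Mathlib

set_option autoImplicit false

/-!
# Locally commutative free rotation groups with the eigenvalue `-1`

For every `n ≥ 6` there is a locally commutative free subgroup of rank two of `SO_n(ℝ)` that
contains an element with eigenvalue `-1`.

Let `q` be a homomorphism of the free group `F` of rank two to the unit quaternions with
`q(w) = ±1` only for `w = 1`. The blocks are
* `ρ₃(w) v = q(w) v q(w)⁻¹` on the imaginary quaternions;
* `ρ₄(w) v = q(w) v λ(w)` on the quaternions, where `λ` is a homomorphism to the complex numbers of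
  norm one with `q(a) λ(a) = -1` for the first generator `a`;
* `ρ₆ = ε ρ₃ ⊕ ε ρ₃`, where `ε : F → {±1}` is a homomorphism with `ε(a) = -1`.
-/

namespace Pool.Agent.Results.MP_6087e2_al.AllDimensions

open Quaternion Matrix

/-- the free group of rank two -/
abbrev F : Type := FreeGroup (Fin 2)

/-! ### Integral quaternions modulo 5 -/

/-- the integral quaternions for the letters -/
def zq (x : Fin 2 × Bool) : ℍ[ℤ] :=
  ⟨3, if x.1 = 0 then (if x.2 then 4 else -4) else 0,
    if x.1 = 0 then 0 else (if x.2 then 4 else -4), 0⟩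

@[simp] lemma zq_re (x : Fin 2 × Bool) : (zq x).re = 3 := rfl
@[simp] lemma zq_imI (x : Fin 2 × Bool) :
    (zq x).imI = if x.1 = 0 then (if x.2 then 4 else -4) else 0 := rfl
@[simp] lemma zq_imJ (x : Fin 2 × Bool) :
    (zq x).imJ = if x.1 = 0 then 0 else (if x.2 then 4 else -4) := rfl
@[simp] lemma zq_imK (x : Fin 2 × Bool) : (zq x).imK = 0 := rfl

/-- products over words -/
def zP (L : List (Fin 2 × Bool)) : ℍ[ℤ] := (L.map zq).prod

/-- quaternions modulo 5 as matrices -/
def mat (q : ℍ[ℤ]) : Matrix (Fin 2) (Fin 2) (ZMod 5) :=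
  !![(q.re : ZMod 5) + 2 * (q.imI : ZMod 5), (q.imJ : ZMod 5) + 2 * (q.imK : ZMod 5);
    -(q.imJ : ZMod 5) + 2 * (q.imK : ZMod 5), (q.re : ZMod 5) - 2 * (q.imI : ZMod 5)]

lemma four : (2 : ZMod 5) * 2 = -1 := by decide

lemma mat_mul (p q : ℍ[ℤ]) : mat (p * q) = mat p * mat q := by
  have h := four
  ext i j
  fin_cases i <;> fin_cases j <;>
    simp [mat, Matrix.mul_apply, Fin.sum_univ_two]
  · linear_combination (-(p.imK : ZMod 5) * q.imK - p.imI * q.imI) * h
  · linear_combination (-(p.imI : ZMod 5) * q.imK + p.imK * q.imI) * h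
  · linear_combination (-(p.imK : ZMod 5) * q.imI + p.imI * q.imK) * h
  · linear_combination (-(p.imK : ZMod 5) * q.imK - p.imI * q.imI) * h

/-- column vectors of the letters -/
def uu (x : Fin 2 × Bool) : Fin 2 → ZMod 5 :=
  if x.1 = 0 then (if x.2 then ![1, 0] else ![0, 1]) else (if x.2 then ![1, 2] else ![1, 3])

/-- row vectors of the letters -/
def vv (x : Fin 2 × Bool) : Fin 2 → ZMod 5 :=
  if x.1 = 0 then (if x.2 then ![1, 0] else ![0, 1]) else (if x.2 then ![3, 4] else ![3, 1])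

lemma mat_zq (x : Fin 2 × Bool) : mat (zq x) = vecMulVec (uu x) (vv x) := by
  obtain ⟨i, b⟩ := x
  fin_cases i <;> cases b <;> ext i j <;> fin_cases i <;> fin_cases j <;>
    simp [mat, uu, vv, vecMulVec_apply] <;> decide

lemma dot_ne (x y : Fin 2 × Bool) (h : x.1 = y.1 → x.2 = y.2) : vv x ⬝ᵥ uu y ≠ 0 := by
  revert x y
  decide

lemma vv_ne (x : Fin 2 × Bool) : vv x ≠ 0 := by
  revert x
  decide

lemma uu_ne (x : Fin 2 × Bool) : uu x ≠ 0 := by
  revert x
  decide

instance : Fact (Nat.Prime 5) := ⟨by norm_num⟩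

lemma mat_zP (x : Fin 2 × Bool) (L : List (Fin 2 × Bool)) (h : FreeGroup.IsReduced (x :: L)) :
    ∃ w : Fin 2 → ZMod 5, w ≠ 0 ∧ mat (zP (x :: L)) = vecMulVec (uu x) w := by
  induction L generalizing x with
  | nil => exact ⟨vv x, vv_ne x, by rw [zP, List.map_singleton, List.prod_singleton, mat_zq]⟩
  | cons y L ih =>
    rw [FreeGroup.IsReduced, List.isChain_cons_cons] at h
    obtain ⟨w, hw, h2⟩ := ih y h.2
    refine ⟨(vv x ⬝ᵥ uu y) • w, smul_ne_zero (dot_ne x y h.1) hw, ?_⟩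
    have : zP (x :: y :: L) = zq x * zP (y :: L) := by simp [zP]
    rw [this, mat_mul, h2, mat_zq, vecMulVec_mul_vecMulVec]

lemma mat_zP_ne (L : List (Fin 2 × Bool)) (h : FreeGroup.IsReduced L) (hL : L ≠ []) :
    mat (zP L) ≠ 0 := by
  cases L with
  | nil => exact absurd rfl hL
  | cons x L =>
    obtain ⟨w, hw, h2⟩ := mat_zP x L h
    rw [h2]
    intro h0
    obtain ⟨i, hi⟩ := Function.ne_iff.1 (uu_ne x)
    obtain ⟨j, hj⟩ := Function.ne_iff.1 hw
    have := congrFun (congrFun h0 i) j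
    rw [vecMulVec_apply] at this
    exact mul_ne_zero hi hj this

/-! ### The unit quaternions -/

/-- the unit quaternions for the letters -/
noncomputable def rq (x : Fin 2 × Bool) : ℍ[ℝ] :=
  ⟨3 / 5, if x.1 = 0 then (if x.2 then 4 / 5 else -4 / 5) else 0,
    if x.1 = 0 then 0 else (if x.2 then 4 / 5 else -4 / 5), 0⟩

@[simp] lemma rq_re (x : Fin 2 × Bool) : (rq x).re = 3 / 5 := rfl
@[simp] lemma rq_imI (x : Fin 2 × Bool) :
    (rq x).imI = if x.1 = 0 then (if x.2 then 4 / 5 else -4 / 5) else 0 := rfl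
@[simp] lemma rq_imJ (x : Fin 2 × Bool) :
    (rq x).imJ = if x.1 = 0 then 0 else (if x.2 then 4 / 5 else -4 / 5) := rfl
@[simp] lemma rq_imK (x : Fin 2 × Bool) : (rq x).imK = 0 := rfl

lemma rq_mul (i : Fin 2) (b : Bool) : rq (i, b) * rq (i, !b) = 1 := by
  fin_cases i <;> cases b <;> ext <;> simp <;> norm_num

/-- the homomorphism to the units of the quaternions -/
noncomputable def qu : F →* ℍ[ℝ]ˣ :=
  FreeGroup.lift fun i => ⟨rq (i, true), rq (i, false), rq_mul i true, rq_mul i false⟩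

/-- the homomorphism to the quaternions -/
noncomputable def q (w : F) : ℍ[ℝ] := (qu w : ℍ[ℝ])

lemma q_mul (w w' : F) : q (w * w') = q w * q w' := by simp [q]

lemma q_one : q 1 = 1 := by simp [q]

lemma q_mk (L : List (Fin 2 × Bool)) : q (FreeGroup.mk L) = (L.map rq).prod := by
  rw [q, qu, FreeGroup.lift_mk]
  induction L with
  | nil => simp
  | cons x L ih =>
    rw [List.map_cons, List.prod_cons, Units.val_mul, ih, List.map_cons, List.prod_cons]
    congr 1
    obtain ⟨i, b⟩ := x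
    cases b <;> rfl

/-- coefficientwise inclusion -/
def cst (z : ℍ[ℤ]) : ℍ[ℝ] := ⟨z.re, z.imI, z.imJ, z.imK⟩

@[simp] lemma cst_re (z : ℍ[ℤ]) : (cst z).re = z.re := rfl
@[simp] lemma cst_imI (z : ℍ[ℤ]) : (cst z).imI = z.imI := rfl
@[simp] lemma cst_imJ (z : ℍ[ℤ]) : (cst z).imJ = z.imJ := rfl
@[simp] lemma cst_imK (z : ℍ[ℤ]) : (cst z).imK = z.imK := rfl

lemma cst_mul (p q : ℍ[ℤ]) : cst (p * q) = cst p * cst q := by
  ext <;> simp

lemma cst_zq (x : Fin 2 × Bool) : cst (zq x) = (5 : ℝ) • rq x := by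
  obtain ⟨i, b⟩ := x
  fin_cases i <;> cases b <;> ext <;> simp <;> norm_num

lemma cst_zP (L : List (Fin 2 × Bool)) : cst (zP L) = (5 : ℝ) ^ L.length • (L.map rq).prod := by
  induction L with
  | nil => ext <;> simp [zP]
  | cons x L ih =>
    have : zP (x :: L) = zq x * zP L := by simp [zP]
    rw [this, cst_mul, ih, cst_zq, List.map_cons, List.prod_cons, List.length_cons, pow_succ,
      smul_mul_smul_comm, mul_comm (5 : ℝ)]

/-- `q(w)` is not a rational integer unless `w = 1` -/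
lemma q_ne (w : F) (hw : w ≠ 1) (c : ℤ) : q w ≠ (c : ℍ[ℝ]) := by
  intro h
  set L := w.toWord with hL
  have h1 : q w = (L.map rq).prod := by
    rw [← q_mk, hL, FreeGroup.mk_toWord]
  have hne : L ≠ [] := fun h => hw (FreeGroup.toWord_eq_nil_iff.1 h)
  have h2 := cst_zP L
  rw [← h1, h] at h2
  have hlen : L.length ≠ 0 := fun h => hne (List.length_eq_zero_iff.1 h)
  obtain ⟨m, hm⟩ := Nat.exists_eq_succ_of_ne_zero hlen
  apply mat_zP_ne L FreeGroup.isReduced_toWord hne
  have e1 := congrArg QuaternionAlgebra.re h2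
  have e2 := congrArg QuaternionAlgebra.imI h2
  have e3 := congrArg QuaternionAlgebra.imJ h2
  have e4 := congrArg QuaternionAlgebra.imK h2
  have f1 : (zP L).re = 5 ^ L.length * c := by
    have : ((zP L).re : ℝ) = 5 ^ L.length * c := by simpa using e1
    exact_mod_cast this
  have f2 : (zP L).imI = 0 := by
    have : ((zP L).imI : ℝ) = 0 := by simpa using e2
    exact_mod_cast this
  have f3 : (zP L).imJ = 0 := by
    have : ((zP L).imJ : ℝ) = 0 := by simpa using e3
    exact_mod_cast this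
  have f4 : (zP L).imK = 0 := by
    have : ((zP L).imK : ℝ) = 0 := by simpa using e4
    exact_mod_cast this
  have f5 : (((zP L).re : ℤ) : ZMod 5) = 0 := by
    rw [f1, hm, pow_succ]
    push_cast
    have : (5 : ZMod 5) = 0 := by decide
    rw [this]; ring
  ext i j
  fin_cases i <;> fin_cases j <;> simp [mat, f2, f3, f4, f5]

lemma eq_one_of_q (w : F) (h : q w = 1 ∨ q w = -1) : w = 1 := by
  by_contra hw
  rcases h with h | h
  · exact q_ne w hw 1 (by rw [h]; simp)
  · exact q_ne w hw (-1) (by rw [h]; simp)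

lemma comm_of_q (w w' : F) (h : q w * q w' = q w' * q w) : w * w' = w' * w := by
  have h1 : q (w * w' * (w' * w)⁻¹) = 1 := by
    have h2 : qu (w * w') = qu (w' * w) := by
      apply Units.ext
      rw [map_mul, map_mul, Units.val_mul, Units.val_mul]
      exact h
    rw [q, map_mul, map_inv, h2, mul_inv_cancel, Units.val_one]
  exact mul_inv_eq_one.1 (eq_one_of_q _ (Or.inl h1))

lemma norm_q (w : F) : normSq (q w) = 1 := by
  have h : ∀ L : List (Fin 2 × Bool), normSq ((L.map rq).prod) = 1 := by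
    intro L
    induction L with
    | nil => simp
    | cons x L ih =>
      rw [List.map_cons, List.prod_cons, map_mul, ih, mul_one]
      obtain ⟨i, b⟩ := x
      rw [normSq_def']
      fin_cases i <;> cases b <;> simp <;> norm_num
  rw [← FreeGroup.mk_toWord (x := w), q_mk]
  exact h _

/-! ### The three-dimensional block -/

/-- the imaginary quaternion with given coordinates -/
def imq (v : Fin 3 → ℝ) : ℍ[ℝ] := ⟨0, v 0, v 1, v 2⟩

@[simp] lemma imq_re (v : Fin 3 → ℝ) : (imq v).re = 0 := rfl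
@[simp] lemma imq_imI (v : Fin 3 → ℝ) : (imq v).imI = v 0 := rfl
@[simp] lemma imq_imJ (v : Fin 3 → ℝ) : (imq v).imJ = v 1 := rfl
@[simp] lemma imq_imK (v : Fin 3 → ℝ) : (imq v).imK = v 2 := rfl

/-- the matrix of `v ↦ p v p̄` on the imaginary quaternions -/
def R3 (p : ℍ[ℝ]) : Matrix (Fin 3) (Fin 3) ℝ :=
  !![p.re ^ 2 + p.imI ^ 2 - p.imJ ^ 2 - p.imK ^ 2, 2 * (p.imI * p.imJ - p.re * p.imK),
      2 * (p.imI * p.imK + p.re * p.imJ);
    2 * (p.imI * p.imJ + p.re * p.imK), p.re ^ 2 - p.imI ^ 2 + p.imJ ^ 2 - p.imK ^ 2,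
      2 * (p.imJ * p.imK - p.re * p.imI);
    2 * (p.imI * p.imK - p.re * p.imJ), 2 * (p.imJ * p.imK + p.re * p.imI),
      p.re ^ 2 - p.imI ^ 2 - p.imJ ^ 2 + p.imK ^ 2]

lemma R3_mul (p r : ℍ[ℝ]) : R3 (p * r) = R3 p * R3 r := by
  ext i j
  fin_cases i <;> fin_cases j <;>
    simp [R3, Matrix.mul_apply, Fin.sum_univ_three] <;> ring

lemma R3_one : R3 1 = 1 := by
  ext i j
  fin_cases i <;> fin_cases j <;> simp [R3]

lemma R3_orth (p : ℍ[ℝ]) : R3 p * (R3 p).transpose = (normSq p ^ 2) • 1 := by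
  rw [normSq_def']
  ext i j
  fin_cases i <;> fin_cases j <;>
    simp [R3, Matrix.mul_apply, Fin.sum_univ_three] <;> ring

lemma R3_det (p : ℍ[ℝ]) : (R3 p).det = normSq p ^ 3 := by
  rw [normSq_def', Matrix.det_fin_three]
  simp [R3]
  ring

/-- the matrix acts by conjugation -/
lemma imq_R3 (p : ℍ[ℝ]) (v : Fin 3 → ℝ) : imq (R3 p *ᵥ v) = p * imq v * star p := by
  ext <;> simp [R3, Matrix.mulVec, dotProduct, Fin.sum_univ_three] <;> ring

lemma fix3 (w : F) (v : Fin 3 → ℝ) (c : ℝ) (h : R3 (q w) *ᵥ v = c • v) :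
    q w * imq v = c • (imq v * q w) := by
  have h1 := imq_R3 (q w) v
  rw [h] at h1
  have h2 : imq (c • v) = c • imq v := by ext <;> simp
  rw [h2] at h1
  have h3 : star (q w) * q w = 1 := by
    rw [Quaternion.star_mul_self, norm_q]; simp
  calc q w * imq v = q w * imq v * (star (q w) * q w) := by rw [h3, mul_one]
    _ = (q w * imq v * star (q w)) * q w := by rw [mul_assoc, mul_assoc, mul_assoc]
    _ = c • (imq v * q w) := by rw [← h1, smul_mul_assoc]

lemma exists_mul (v : Fin 3 → ℝ) (hv : v ≠ 0) (a b c : ℝ) (h1 : b * v 2 = c * v 1)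
    (h2 : c * v 0 = a * v 2) (h3 : a * v 1 = b * v 0) :
    ∃ t : ℝ, a = t * v 0 ∧ b = t * v 1 ∧ c = t * v 2 := by
  obtain ⟨i, hi⟩ := Function.ne_iff.1 hv
  rw [Pi.zero_apply] at hi
  fin_cases i
  · have hi : v 0 ≠ 0 := hi
    refine ⟨a / v 0, ?_, ?_, ?_⟩ <;> field_simp
    · linarith
    · linarith
  · have hi : v 1 ≠ 0 := hi
    refine ⟨b / v 1, ?_, ?_, ?_⟩ <;> field_simp
    · linarith
    · linarith
  · have hi : v 2 ≠ 0 := hi
    refine ⟨c / v 2, ?_, ?_, ?_⟩ <;> field_simp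
    · linarith
    · linarith

lemma exists_mul' (p : ℍ[ℝ]) (v : Fin 3 → ℝ) (hv : v ≠ 0) (hp : p * imq v = imq v * p) :
    ∃ t : ℝ, p.imI = t * v 0 ∧ p.imJ = t * v 1 ∧ p.imK = t * v 2 := by
  have p1 := congrArg QuaternionAlgebra.imI hp
  have p2 := congrArg QuaternionAlgebra.imJ hp
  have p3 := congrArg QuaternionAlgebra.imK hp
  simp at p1 p2 p3
  apply exists_mul v hv <;> linarith

/-- quaternions that commute with a nonzero imaginary quaternion commute -/
lemma comm_of_comm (p r : ℍ[ℝ]) (v : Fin 3 → ℝ) (hv : v ≠ 0) (hp : p * imq v = imq v * p)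
    (hr : r * imq v = imq v * r) : p * r = r * p := by
  obtain ⟨t, t1, t2, t3⟩ := exists_mul' p v hv hp
  obtain ⟨s, s1, s2, s3⟩ := exists_mul' r v hv hr
  ext <;> simp [t1, t2, t3, s1, s2, s3] <;> ring

/-- two elements of the free group with a common fixed point in the block commute -/
lemma lc3 (w w' : F) (v : Fin 3 → ℝ) (hv : v ≠ 0) (h : R3 (q w) *ᵥ v = v)
    (h' : R3 (q w') *ᵥ v = v) : w * w' = w' * w := by
  apply comm_of_q
  apply comm_of_comm _ _ v hv
  · have := fix3 w v 1 (by rw [h, one_smul])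
    rwa [one_smul] at this
  · have := fix3 w' v 1 (by rw [h', one_smul])
    rwa [one_smul] at this

/-- no element of the free group has the eigenvalue `-1` in this block -/
lemma no_neg3 (w : F) (v : Fin 3 → ℝ) (hv : v ≠ 0) : R3 (q w) *ᵥ v ≠ -v := by
  intro h
  have h1 := fix3 w v (-1) (by rw [h, neg_one_smul])
  rw [neg_one_smul] at h1
  have hre : (q w).re = 0 := by
    have p1 := congrArg QuaternionAlgebra.imI h1
    have p2 := congrArg QuaternionAlgebra.imJ h1
    have p3 := congrArg QuaternionAlgebra.imK h1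
    simp at p1 p2 p3
    obtain ⟨i, hi⟩ := Function.ne_iff.1 hv
    rw [Pi.zero_apply] at hi
    fin_cases i
    · have : (q w).re * v 0 = 0 := by linarith
      exact (mul_eq_zero.1 this).resolve_right hi
    · have : (q w).re * v 1 = 0 := by linarith
      exact (mul_eq_zero.1 this).resolve_right hi
    · have : (q w).re * v 2 = 0 := by linarith
      exact (mul_eq_zero.1 this).resolve_right hi
  have hn := norm_q w
  rw [normSq_def', hre] at hn
  have h2 : q (w * w) = -1 := by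
    rw [q_mul]
    ext
    · simp [hre]; nlinarith [hn]
    · simp [hre]; ring
    · simp [hre]; ring
    · simp [hre]; ring
  have h4 := eq_one_of_q _ (Or.inr h2)
  rw [h4, q_one] at h2
  have := congrArg QuaternionAlgebra.re h2
  simp at this
  norm_num at this

/-! ### The four-dimensional block -/

/-- the quaternion with given coordinates -/
def qv (v : Fin 4 → ℝ) : ℍ[ℝ] := ⟨v 0, v 1, v 2, v 3⟩

@[simp] lemma qv_re (v : Fin 4 → ℝ) : (qv v).re = v 0 := rfl
@[simp] lemma qv_imI (v : Fin 4 → ℝ) : (qv v).imI = v 1 := rfl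
@[simp] lemma qv_imJ (v : Fin 4 → ℝ) : (qv v).imJ = v 2 := rfl
@[simp] lemma qv_imK (v : Fin 4 → ℝ) : (qv v).imK = v 3 := rfl

/-- left multiplication -/
def L4 (p : ℍ[ℝ]) : Matrix (Fin 4) (Fin 4) ℝ :=
  !![p.re, -p.imI, -p.imJ, -p.imK;
    p.imI, p.re, -p.imK, p.imJ;
    p.imJ, p.imK, p.re, -p.imI;
    p.imK, -p.imJ, p.imI, p.re]

/-- right multiplication -/
def R4 (l : ℍ[ℝ]) : Matrix (Fin 4) (Fin 4) ℝ :=
  !![l.re, -l.imI, -l.imJ, -l.imK;
    l.imI, l.re, l.imK, -l.imJ;
    l.imJ, -l.imK, l.re, l.imI;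
    l.imK, l.imJ, -l.imI, l.re]

lemma qv_L4 (p : ℍ[ℝ]) (v : Fin 4 → ℝ) : qv (L4 p *ᵥ v) = p * qv v := by
  ext <;> simp [L4, dotProduct, Fin.sum_univ_four] <;> ring

lemma qv_R4 (l : ℍ[ℝ]) (v : Fin 4 → ℝ) : qv (R4 l *ᵥ v) = qv v * l := by
  ext <;> simp [R4, dotProduct, Fin.sum_univ_four] <;> ring

lemma qv_inj {v v' : Fin 4 → ℝ} (h : qv v = qv v') : v = v' := by
  funext i
  fin_cases i
  · exact congrArg QuaternionAlgebra.re h
  · exact congrArg QuaternionAlgebra.imI h
  · exact congrArg QuaternionAlgebra.imJ h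
  · exact congrArg QuaternionAlgebra.imK h

lemma qv_surj (x : ℍ[ℝ]) : ∃ v, qv v = x := ⟨![x.re, x.imI, x.imJ, x.imK], by ext <;> simp⟩

lemma L4_orth (p : ℍ[ℝ]) : L4 p * (L4 p).transpose = normSq p • 1 := by
  rw [normSq_def']
  ext i j
  fin_cases i <;> fin_cases j <;>
    simp [L4, Matrix.mul_apply, Fin.sum_univ_four] <;> ring

lemma R4_orth (p : ℍ[ℝ]) : R4 p * (R4 p).transpose = normSq p • 1 := by
  rw [normSq_def']
  ext i j
  fin_cases i <;> fin_cases j <;>
    simp [R4, Matrix.mul_apply, Fin.sum_univ_four] <;> ring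

lemma L4_det (p : ℍ[ℝ]) : (L4 p).det = normSq p ^ 2 := by
  rw [normSq_def', Matrix.det_succ_row_zero]
  simp [L4, Fin.sum_univ_succ, Matrix.det_fin_three, Fin.succAbove, Matrix.submatrix]
  ring

lemma R4_det (p : ℍ[ℝ]) : (R4 p).det = normSq p ^ 2 := by
  rw [normSq_def', Matrix.det_succ_row_zero]
  simp [R4, Fin.sum_univ_succ, Matrix.det_fin_three, Fin.succAbove, Matrix.submatrix]
  ring

/-- the complex number `(-3 + 4 i) / 5` and its inverse -/
noncomputable def lq (b : Bool) : ℍ[ℝ] := ⟨-3 / 5, if b then 4 / 5 else -4 / 5, 0, 0⟩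

@[simp] lemma lq_re (b : Bool) : (lq b).re = -3 / 5 := rfl
@[simp] lemma lq_imI (b : Bool) : (lq b).imI = if b then 4 / 5 else -4 / 5 := rfl
@[simp] lemma lq_imJ (b : Bool) : (lq b).imJ = 0 := rfl
@[simp] lemma lq_imK (b : Bool) : (lq b).imK = 0 := rfl

lemma lq_mul (b : Bool) : lq b * lq (!b) = 1 := by
  cases b <;> ext <;> simp <;> norm_num

/-- the character `λ` with values in the complex numbers of norm one -/
noncomputable def lu : F →* ℍ[ℝ]ˣ :=
  FreeGroup.lift fun i => if i = 0 then ⟨lq true, lq false, lq_mul true, lq_mul false⟩ else 1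

/-- the character `λ` -/
noncomputable def lam (w : F) : ℍ[ℝ] := (lu w : ℍ[ℝ])

lemma lam_mul (w w' : F) : lam (w * w') = lam w * lam w' := by simp [lam]

lemma lam_props (w : F) : (lam w).imJ = 0 ∧ (lam w).imK = 0 ∧ normSq (lam w) = 1 := by
  induction w using FreeGroup.induction_on with
  | C1 => simp [lam]
  | of i =>
    rw [lam, lu, FreeGroup.lift_apply_of]
    split_ifs
    · refine ⟨rfl, rfl, ?_⟩
      change normSq (lq true) = 1
      rw [normSq_def']
      simp
      norm_num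
    · simp
  | inv_of i _ =>
    rw [lam, map_inv, lu, FreeGroup.lift_apply_of]
    split_ifs
    · refine ⟨rfl, rfl, ?_⟩
      change normSq (lq false) = 1
      rw [normSq_def']
      simp
      norm_num
    · simp
  | mul x y hx hy =>
    obtain ⟨a1, a2, a3⟩ := hx
    obtain ⟨b1, b2, b3⟩ := hy
    rw [lam_mul]
    refine ⟨by simp [a1, a2, b1, b2], by simp [a1, a2, b1, b2], by rw [map_mul, a3, b3, one_mul]⟩

lemma lam_comm (w w' : F) : lam w * lam w' = lam w' * lam w := by
  obtain ⟨a1, a2, -⟩ := lam_props w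
  obtain ⟨b1, b2, -⟩ := lam_props w'
  ext <;> simp [a1, a2, b1, b2] <;> ring

lemma lam_ne (w : F) : lam w ≠ 0 := by
  intro h
  have := (lam_props w).2.2
  rw [h, map_zero] at this
  exact zero_ne_one this

lemma q_ne_zero (w : F) : q w ≠ 0 := by
  intro h
  have := norm_q w
  rw [h, map_zero] at this
  exact zero_ne_one this

/-! ### Locally commutative representations -/

/-- faithful locally commutative representations of the free group by rotations -/
structure LCR {ι : Type} [Fintype ι] [DecidableEq ι] (ρ : F → Matrix ι ι ℝ) : Prop where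
  mul : ∀ w w', ρ (w * w') = ρ w * ρ w'
  so : ∀ w, ρ w * (ρ w)ᵀ = 1
  det : ∀ w, (ρ w).det = 1
  inj : ∀ w, ρ w = 1 → w = 1
  lc : ∀ w w' v, v ≠ 0 → ρ w *ᵥ v = v → ρ w' *ᵥ v = v → w * w' = w' * w

/-- some element has the eigenvalue `-1` -/
def HasNeg {ι : Type} [Fintype ι] [DecidableEq ι] (ρ : F → Matrix ι ι ℝ) : Prop :=
  ∃ w v, v ≠ 0 ∧ ρ w *ᵥ v = -v

lemma qim_of_comm (p : ℍ[ℝ]) (h : ∀ x, p * x = x * p) : p.imI = 0 ∧ p.imJ = 0 ∧ p.imK = 0 := by
  have h1 := h (qv ![0, 1, 0, 0])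
  have h2 := h (qv ![0, 0, 1, 0])
  have e1 := congrArg QuaternionAlgebra.imJ h1
  have e2 := congrArg QuaternionAlgebra.imK h1
  have e3 := congrArg QuaternionAlgebra.imK h2
  simp at e1 e2 e3
  refine ⟨?_, ?_, ?_⟩ <;> linarith

lemma eq_one_of_comm (w : F) (h : ∀ x, q w * x = x * q w) : w = 1 := by
  obtain ⟨h1, h2, h3⟩ := qim_of_comm _ h
  have hn := norm_q w
  rw [normSq_def', h1, h2, h3] at hn
  have h4 : ((q w).re - 1) * ((q w).re + 1) = 0 := by linarith
  apply eq_one_of_q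
  rcases mul_eq_zero.1 h4 with h5 | h5
  · left
    ext
    · simp; linarith
    all_goals simp [h1, h2, h3]
  · right
    ext
    · simp; linarith
    all_goals simp [h1, h2, h3]

/-- the four-dimensional block -/
noncomputable def rho4 (w : F) : Matrix (Fin 4) (Fin 4) ℝ := L4 (q w) * R4 (lam w)

lemma qv_rho4 (w : F) (v : Fin 4 → ℝ) : qv (rho4 w *ᵥ v) = q w * qv v * lam w := by
  rw [rho4, ← Matrix.mulVec_mulVec, qv_L4, qv_R4, mul_assoc]

lemma lcr4 : LCR rho4 where
  mul w w' := by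
    apply Matrix.toLin'.injective
    apply LinearMap.ext
    intro v
    rw [Matrix.toLin'_apply, Matrix.toLin'_apply]
    apply qv_inj
    rw [← Matrix.mulVec_mulVec, qv_rho4, qv_rho4, qv_rho4, q_mul, lam_mul, lam_comm w w']
    simp only [mul_assoc]
  so w := by
    rw [rho4, Matrix.transpose_mul]
    calc L4 (q w) * R4 (lam w) * ((R4 (lam w))ᵀ * (L4 (q w))ᵀ)
        = L4 (q w) * (R4 (lam w) * (R4 (lam w))ᵀ) * (L4 (q w))ᵀ := by simp only [mul_assoc]
      _ = 1 := by rw [R4_orth, (lam_props w).2.2, one_smul, mul_one, L4_orth, norm_q, one_smul]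
  det w := by
    rw [rho4, Matrix.det_mul, L4_det, R4_det, norm_q, (lam_props w).2.2]; norm_num
  inj w h := by
    have h1 : ∀ x, q w * x * lam w = x := by
      intro x
      obtain ⟨v, rfl⟩ := qv_surj x
      rw [← qv_rho4, h, Matrix.one_mulVec]
    have h2 := h1 1
    rw [mul_one] at h2
    apply eq_one_of_comm
    intro x
    apply mul_right_cancel₀ (lam_ne w)
    rw [h1, mul_assoc, h2, mul_one]
  lc w w' v hv h h' := by
    have hx : qv v ≠ 0 := by
      intro h0
      apply hv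
      apply qv_inj
      rw [h0]
      ext <;> simp
    have e1 := qv_rho4 w v
    have e2 := qv_rho4 w' v
    rw [h] at e1
    rw [h'] at e2
    apply comm_of_q
    have f1 : q w = qv v * (lam w)⁻¹ * (qv v)⁻¹ := by
      rw [eq_mul_inv_iff_mul_eq₀ hx, eq_mul_inv_iff_mul_eq₀ (lam_ne w)]
      exact e1.symm
    have f2 : q w' = qv v * (lam w')⁻¹ * (qv v)⁻¹ := by
      rw [eq_mul_inv_iff_mul_eq₀ hx, eq_mul_inv_iff_mul_eq₀ (lam_ne w')]
      exact e2.symm
    have f3 : (lam w)⁻¹ * (lam w')⁻¹ = (lam w')⁻¹ * (lam w)⁻¹ := by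
      rw [← _root_.mul_inv_rev, ← _root_.mul_inv_rev, lam_comm]
    rw [f1, f2]
    calc qv v * (lam w)⁻¹ * (qv v)⁻¹ * (qv v * (lam w')⁻¹ * (qv v)⁻¹)
        = qv v * (lam w)⁻¹ * ((qv v)⁻¹ * qv v) * (lam w')⁻¹ * (qv v)⁻¹ := by simp only [mul_assoc]
      _ = qv v * ((lam w)⁻¹ * (lam w')⁻¹) * (qv v)⁻¹ := by
        rw [inv_mul_cancel₀ hx, mul_one]; simp only [mul_assoc]
      _ = qv v * (lam w')⁻¹ * ((qv v)⁻¹ * qv v) * (lam w)⁻¹ * (qv v)⁻¹ := by
        rw [inv_mul_cancel₀ hx, mul_one, f3]; simp only [mul_assoc]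
      _ = _ := by simp only [mul_assoc]

lemma hasNeg4 : HasNeg rho4 := by
  refine ⟨FreeGroup.of 0, ![1, 0, 0, 0], ?_, ?_⟩
  · intro h
    have := congrFun h 0
    simp at this
  · apply qv_inj
    rw [qv_rho4]
    have h1 : q (FreeGroup.of 0) = rq (0, true) := by
      rw [q, qu, FreeGroup.lift_apply_of]
    have h2 : lam (FreeGroup.of 0) = lq true := by
      rw [lam, lu, FreeGroup.lift_apply_of]; rfl
    rw [h1, h2]
    ext <;> simp <;> norm_num

/-- the three-dimensional block -/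
noncomputable def rho3 (w : F) : Matrix (Fin 3) (Fin 3) ℝ := R3 (q w)

lemma inj3 (w : F) (h : R3 (q w) = 1) : w = 1 := by
  apply eq_one_of_comm
  intro x
  have h1 := fix3 w ![x.imI, x.imJ, x.imK] 1 (by rw [h, Matrix.one_mulVec, one_smul])
  rw [one_smul] at h1
  have h2 : x = (x.re : ℍ[ℝ]) + imq ![x.imI, x.imJ, x.imK] := by ext <;> simp
  rw [h2, mul_add, add_mul, h1, Quaternion.coe_commutes]

lemma lcr3 : LCR rho3 where
  mul w w' := by rw [rho3, q_mul, R3_mul]; rfl
  so w := by rw [rho3, R3_orth, norm_q]; norm_num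
  det w := by rw [rho3, R3_det, norm_q]; norm_num
  inj w h := inj3 w h
  lc w w' v hv h h' := lc3 w w' v hv h h'

/-! ### The six-dimensional block -/

/-- the sign character -/
def ep : F →* ℤˣ := FreeGroup.lift fun i => if i = 0 then -1 else 1

/-- the sign character as a real number -/
def er (w : F) : ℝ := ((ep w : ℤ) : ℝ)

lemma er_mul (w w' : F) : er (w * w') = er w * er w' := by simp [er]

lemma er_cases (w : F) : er w = 1 ∨ er w = -1 := by
  rcases Int.units_eq_one_or (ep w) with h | h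
  · left; simp [er, h]
  · right; simp [er, h]

/-- the twisted three-dimensional block -/
noncomputable def tw (w : F) : Matrix (Fin 3) (Fin 3) ℝ := er w • R3 (q w)

lemma tw_mul (w w' : F) : tw (w * w') = tw w * tw w' := by
  rw [tw, tw, tw, er_mul, q_mul, R3_mul, smul_mul_smul_comm]

lemma tw_so (w : F) : tw w * (tw w)ᵀ = 1 := by
  rw [tw, Matrix.transpose_smul, smul_mul_smul_comm, R3_orth, norm_q]
  rcases er_cases w with h | h <;> rw [h] <;> norm_num

lemma tw_det (w : F) : (tw w).det = er w := by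
  rw [tw, Matrix.det_smul, R3_det, norm_q, Fintype.card_fin]
  rcases er_cases w with h | h <;> rw [h] <;> norm_num

lemma tw_fix (w : F) (v : Fin 3 → ℝ) (hv : v ≠ 0) (h : tw w *ᵥ v = v) : R3 (q w) *ᵥ v = v := by
  rw [tw, Matrix.smul_mulVec] at h
  rcases er_cases w with h1 | h1
  · rwa [h1, one_smul] at h
  · exfalso
    apply no_neg3 w v hv
    rw [h1, neg_one_smul] at h
    rw [← neg_eq_iff_eq_neg]
    exact h

lemma tw_inj (w : F) (h : tw w = 1) : w = 1 := by
  rcases er_cases w with h1 | h1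
  · apply inj3
    rwa [tw, h1, one_smul] at h
  · exfalso
    have hv : (![1, 0, 0] : Fin 3 → ℝ) ≠ 0 := by
      intro h
      have := congrFun h 0
      simp at this
    have h2 := tw_fix w _ hv (by rw [h, Matrix.one_mulVec])
    have h3 : tw w *ᵥ (![1, 0, 0] : Fin 3 → ℝ) = ![1, 0, 0] := by rw [h, Matrix.one_mulVec]
    rw [tw, Matrix.smul_mulVec, h2, h1, neg_one_smul] at h3
    have := congrFun h3 0
    simp at this
    norm_num at this

/-- block sums -/
lemma LCR.sum {ι κ : Type} [Fintype ι] [DecidableEq ι] [Fintype κ] [DecidableEq κ]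
    {ρ : F → Matrix ι ι ℝ} {σ : F → Matrix κ κ ℝ} (hρ : LCR ρ) (hσ : LCR σ) :
    LCR (fun w => Matrix.fromBlocks (ρ w) 0 0 (σ w)) where
  mul w w' := by simp [Matrix.fromBlocks_multiply, hρ.mul, hσ.mul]
  so w := by
    rw [Matrix.fromBlocks_transpose, Matrix.fromBlocks_multiply]
    simp [hρ.so, hσ.so]
  det w := by rw [Matrix.det_fromBlocks_zero₁₂, hρ.det, hσ.det, one_mul]
  inj w h := by
    rw [← Matrix.fromBlocks_one, Matrix.fromBlocks_inj] at h
    exact hρ.inj w h.1
  lc w w' v hv h h' := by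
    have hb : ∀ w, Matrix.fromBlocks (ρ w) 0 0 (σ w) *ᵥ v =
        Sum.elim (ρ w *ᵥ (v ∘ Sum.inl)) (σ w *ᵥ (v ∘ Sum.inr)) := by
      intro w
      rw [Matrix.fromBlocks_mulVec]
      simp
    rw [hb] at h h'
    by_cases h1 : v ∘ Sum.inl = 0
    · have h2 : v ∘ Sum.inr ≠ 0 := by
        intro h2
        apply hv
        funext i
        rcases i with i | i
        · exact congrFun h1 i
        · exact congrFun h2 i
      refine hσ.lc w w' _ h2 ?_ ?_
      · funext i; exact congrFun h (Sum.inr i)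
      · funext i; exact congrFun h' (Sum.inr i)
    · refine hρ.lc w w' _ h1 ?_ ?_
      · funext i; exact congrFun h (Sum.inl i)
      · funext i; exact congrFun h' (Sum.inl i)

lemma HasNeg.sum {ι κ : Type} [Fintype ι] [DecidableEq ι] [Fintype κ] [DecidableEq κ]
    {ρ : F → Matrix ι ι ℝ} (σ : F → Matrix κ κ ℝ) (hρ : HasNeg ρ) :
    HasNeg (fun w => Matrix.fromBlocks (ρ w) 0 0 (σ w)) := by
  obtain ⟨w, v, hv, h⟩ := hρ
  refine ⟨w, Sum.elim v 0, ?_, ?_⟩
  · intro h0
    apply hv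
    funext i
    exact congrFun h0 (Sum.inl i)
  · dsimp only
    rw [Matrix.fromBlocks_mulVec]
    funext i
    rcases i with i | i
    · simpa using congrFun h i
    · simp

/-- change of the index type -/
lemma LCR.reindex {ι κ : Type} [Fintype ι] [DecidableEq ι] [Fintype κ] [DecidableEq κ]
    {ρ : F → Matrix ι ι ℝ} (hρ : LCR ρ) (e : ι ≃ κ) :
    LCR (fun w => (ρ w).submatrix e.symm e.symm) where
  mul w w' := by rw [hρ.mul, Matrix.submatrix_mul_equiv]
  so w := by
    rw [Matrix.transpose_submatrix, Matrix.submatrix_mul_equiv, hρ.so, Matrix.submatrix_one_equiv]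
  det w := by rw [Matrix.det_submatrix_equiv_self, hρ.det]
  inj w h := by
    apply hρ.inj
    have := congrArg (fun M => M.submatrix e e) h
    simpa using this
  lc w w' v hv h h' := by
    have hb : ∀ w, (ρ w).submatrix e.symm e.symm *ᵥ v = (ρ w *ᵥ (v ∘ e)) ∘ e.symm := by
      intro w
      exact Matrix.submatrix_mulVec_equiv _ _ _ _
    rw [hb] at h h'
    refine hρ.lc w w' (v ∘ e) ?_ ?_ ?_
    · intro h0
      apply hv
      funext i
      have := congrFun h0 (e.symm i)
      simpa using this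
    · funext i
      have := congrFun h (e i)
      simpa using this
    · funext i
      have := congrFun h' (e i)
      simpa using this

lemma HasNeg.reindex {ι κ : Type} [Fintype ι] [DecidableEq ι] [Fintype κ] [DecidableEq κ]
    {ρ : F → Matrix ι ι ℝ} (hρ : HasNeg ρ) (e : ι ≃ κ) :
    HasNeg (fun w => (ρ w).submatrix e.symm e.symm) := by
  obtain ⟨w, v, hv, h⟩ := hρ
  refine ⟨w, v ∘ e.symm, ?_, ?_⟩
  · intro h0
    apply hv
    funext i
    have := congrFun h0 (e i)
    simpa using this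
  · have hb : (ρ w).submatrix e.symm e.symm *ᵥ (v ∘ e.symm) =
        (ρ w *ᵥ ((v ∘ e.symm) ∘ e)) ∘ e.symm := Matrix.submatrix_mulVec_equiv _ _ _ _
    dsimp only
    rw [hb]
    have : (v ∘ e.symm) ∘ e = v := by funext i; simp
    rw [this, h]
    rfl

lemma lcr6 : LCR (fun w => Matrix.fromBlocks (tw w) 0 0 (tw w)) where
  mul w w' := by simp [Matrix.fromBlocks_multiply, tw_mul]
  so w := by
    rw [Matrix.fromBlocks_transpose, Matrix.fromBlocks_multiply]
    simp [tw_so]
  det w := by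
    rw [Matrix.det_fromBlocks_zero₁₂, tw_det]
    rcases er_cases w with h | h <;> rw [h] <;> norm_num
  inj w h := by
    rw [← Matrix.fromBlocks_one, Matrix.fromBlocks_inj] at h
    exact tw_inj w h.1
  lc w w' v hv h h' := by
    have hb : ∀ w, Matrix.fromBlocks (tw w) 0 0 (tw w) *ᵥ v =
        Sum.elim (tw w *ᵥ (v ∘ Sum.inl)) (tw w *ᵥ (v ∘ Sum.inr)) := by
      intro w
      rw [Matrix.fromBlocks_mulVec]
      simp
    rw [hb] at h h'
    by_cases h1 : v ∘ Sum.inl = 0
    · have h2 : v ∘ Sum.inr ≠ 0 := by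
        intro h2
        apply hv
        funext i
        rcases i with i | i
        · exact congrFun h1 i
        · exact congrFun h2 i
      exact lc3 w w' _ h2 (tw_fix w _ h2 (funext fun i => congrFun h (Sum.inr i)))
        (tw_fix w' _ h2 (funext fun i => congrFun h' (Sum.inr i)))
    · exact lc3 w w' _ h1 (tw_fix w _ h1 (funext fun i => congrFun h (Sum.inl i)))
        (tw_fix w' _ h1 (funext fun i => congrFun h' (Sum.inl i)))

lemma hasNeg6 : HasNeg (fun w => Matrix.fromBlocks (tw w) 0 0 (tw w)) := by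
  apply HasNeg.sum
  refine ⟨FreeGroup.of 0, ![1, 0, 0], ?_, ?_⟩
  · intro h
    have := congrFun h 0
    simp at this
  · have h1 : q (FreeGroup.of 0) = rq (0, true) := by
      rw [q, qu, FreeGroup.lift_apply_of]
    have h2 : er (FreeGroup.of 0) = -1 := by
      rw [er, ep, FreeGroup.lift_apply_of]; simp
    rw [tw, h1, h2, neg_one_smul]
    funext i
    fin_cases i <;> simp [R3, dotProduct, Fin.sum_univ_three] <;> norm_num

/-! ### All dimensions -/

/-- there is a faithful locally commutative representation of dimension `n` with the eigenvalue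
`-1` -/
def PP (n : ℕ) : Prop := ∃ ρ : F → Matrix (Fin n) (Fin n) ℝ, LCR ρ ∧ HasNeg ρ

lemma PP.add {n : ℕ} (h : PP n) {m : ℕ} {σ : F → Matrix (Fin m) (Fin m) ℝ} (hσ : LCR σ) :
    PP (n + m) := by
  obtain ⟨ρ, h1, h2⟩ := h
  exact ⟨_, (h1.sum hσ).reindex finSumFinEquiv, (h2.sum σ).reindex finSumFinEquiv⟩

lemma pp6 : PP 6 := ⟨_, lcr6.reindex (finSumFinEquiv (m := 3) (n := 3)),
  hasNeg6.reindex (finSumFinEquiv (m := 3) (n := 3))⟩

lemma pp4 : PP 4 := ⟨_, lcr4, hasNeg4⟩

lemma pp7 : PP 7 := pp4.add lcr3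

lemma pp8 : PP 8 := pp4.add lcr4

lemma pp (n : ℕ) (hn : 6 ≤ n) : PP n := by
  induction n using Nat.strong_induction_on with
  | _ n ih =>
    rcases Nat.lt_or_ge n 9 with h | h
    · interval_cases n
      · exact pp6
      · exact pp7
      · exact pp8
    · obtain ⟨m, rfl⟩ := Nat.exists_eq_add_of_le h
      have := (ih (6 + m) (by omega) (by omega)).add lcr3
      have e : 6 + m + 3 = 9 + m := by omega
      rwa [e] at this

/-- A subgroup `G` of `SO_n(ℝ)` is locally commutative: any two elements of `G` that have a common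
fixed point on the unit sphere commute. -/
def LocallyCommutative {n : ℕ} (G : Subgroup (Matrix.specialOrthogonalGroup (Fin n) ℝ)) : Prop :=
  ∀ g ∈ G, ∀ h ∈ G, ∀ x : Fin n → ℝ, ∑ i, x i ^ 2 = 1 → g.1 *ᵥ x = x → h.1 *ᵥ x = x →
    g * h = h * g

/-- For every `n ≥ 6` there is a locally commutative subgroup of `SO_n(ℝ)` that is free of rank two
and contains an element with the eigenvalue `-1`. -/
theorem result (n : ℕ) (hn : 6 ≤ n) : ∃ G : Subgroup (Matrix.specialOrthogonalGroup (Fin n) ℝ),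
    Nonempty (FreeGroup (Fin 2) ≃* G) ∧ LocallyCommutative G ∧
    ∃ g ∈ G, ∃ x : Fin n → ℝ, x ≠ 0 ∧ g.1 *ᵥ x = -x := by
  obtain ⟨ρ, h1, w, v, hv, hw⟩ := pp n hn
  have hone : ρ 1 = 1 := by
    have h2 := h1.mul 1 1
    rw [mul_one] at h2
    calc ρ 1 = ρ 1 * (ρ 1 * (ρ 1)ᵀ) := by rw [h1.so, mul_one]
      _ = (ρ 1 * ρ 1) * (ρ 1)ᵀ := by rw [mul_assoc]
      _ = 1 := by rw [← h2, h1.so]
  let φ : F →* Matrix.specialOrthogonalGroup (Fin n) ℝ :=
    { toFun := fun w => ⟨ρ w, by
        rw [Matrix.mem_specialOrthogonalGroup_iff, Matrix.mem_orthogonalGroup_iff]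
        exact ⟨h1.so w, h1.det w⟩⟩
      map_one' := Subtype.ext hone
      map_mul' := fun w w' => Subtype.ext (h1.mul w w') }
  have hφ : Function.Injective φ := by
    rw [injective_iff_map_eq_one]
    intro w hw
    exact h1.inj w (congrArg Subtype.val hw)
  refine ⟨φ.range, ⟨MonoidHom.ofInjective hφ⟩, ?_, φ w, ⟨w, rfl⟩, v, hv, hw⟩
  rintro _ ⟨a, rfl⟩ _ ⟨b, rfl⟩ x hx ha hb
  have hx0 : x ≠ 0 := by
    rintro rfl
    simp at hx
  rw [← map_mul, ← map_mul, h1.lc a b x hx0 ha hb]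

end Pool.Agent.Results.MP_6087e2_al.AllDimensions
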